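import Mathlib

/-! Polynomial bounds for ratios of Gamma values. -/

open Real Set

namespace Pool.Agent.V11109.StSup

theorem gamma_add_nat_le {y : ℝ} (hy : 0 < y) (N : ℕ) :
    Gamma (y + N) ≤ Gamma y * (y + N + 1) ^ N := by
  induction N with
  | zero => simp
  | succ N ih =>
    have h0 : y + N ≠ 0 := by positivity
    have h1 : Gamma (y + (N + 1 : ℕ)) = (y + N) * Gamma (y + N) := by
      rw [← Gamma_add_one h0]
      push_cast
      ring_nf
    rw [h1]
    have hG : 0 < Gamma y := Gamma_pos_of_pos hy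
    have hp : (y + N + 1) ^ N ≤ (y + (N + 1 : ℕ) + 1) ^ N :=
      pow_le_pow_left₀ (by positivity) (by push_cast; linarith) N
    have hq : y + N ≤ y + (N + 1 : ℕ) + 1 := by push_cast; linarith
    calc (y + N) * Gamma (y + N) ≤ (y + N) * (Gamma y * (y + N + 1) ^ N) := by gcongr
      _ ≤ (y + (N + 1 : ℕ) + 1) * (Gamma y * (y + (N + 1 : ℕ) + 1) ^ N) :=
          mul_le_mul hq (mul_le_mul_of_nonneg_left hp hG.le) (by positivity) (by positivity)
      _ = _ := by ring

theorem le_gamma_add_nat {y : ℝ} (hy : 0 < y) (N : ℕ) :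
    Gamma y * min 1 y ^ 1 ≤ Gamma (y + N) ∨ N = 0 := by
  induction N with
  | zero => exact Or.inr rfl
  | succ N ih =>
    left
    have h0 : y + N ≠ 0 := by positivity
    have h1 : Gamma (y + (N + 1 : ℕ)) = (y + N) * Gamma (y + N) := by
      rw [← Gamma_add_one h0]
      push_cast
      ring_nf
    rw [h1]
    have hG : 0 < Gamma y := Gamma_pos_of_pos hy
    have hm : min 1 y ≤ y := min_le_right _ _
    have hm1 : min 1 y ≤ 1 := min_le_left _ _
    have hm0 : 0 < min 1 y := lt_min one_pos hy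
    rcases ih with h | h
    · rcases Nat.eq_zero_or_pos N with hN | hN
      · subst hN
        simp only [pow_one, Nat.cast_zero, add_zero]
        nlinarith
      · have hN1 : (1 : ℝ) ≤ N := by exact_mod_cast hN
        have h2 : 0 < Gamma (y + N) := Gamma_pos_of_pos (by positivity)
        calc _ ≤ Gamma (y + N) := h
          _ = 1 * Gamma (y + N) := (one_mul _).symm
          _ ≤ _ := by
              gcongr
              linarith
    · subst h
      simp only [pow_one, Nat.cast_zero, add_zero]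
      nlinarith

theorem gamma_add_le {y β : ℝ} (hy : 0 < y) {N : ℕ} (hβ0 : 0 ≤ β) (hβ : β ≤ N) :
    Gamma (y + β) ≤ Gamma y * (y + N + 1) ^ N := by
  have hG : 0 < Gamma y := Gamma_pos_of_pos hy
  have h1 : Gamma (y + β) ≤ max (Gamma y) (Gamma (y + N)) := by
    refine convexOn_Gamma.le_max_of_mem_Icc (mem_Ioi.mpr hy) (mem_Ioi.mpr (by positivity)) ?_
    exact ⟨by linarith, by linarith⟩
  refine h1.trans (max_le ?_ (gamma_add_nat_le hy N))
  have : (1 : ℝ) ≤ (y + N + 1) ^ N := one_le_pow₀ (by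
    have : (0 : ℝ) ≤ N := Nat.cast_nonneg _
    linarith)
  nlinarith

theorem le_gamma_add {y β : ℝ} (hy : 0 < y) {N : ℕ} (hN : N ≠ 0) (hβ0 : 0 ≤ β) (hβ : β ≤ N) :
    Gamma y * min 1 y ≤ Gamma (y + β) * (y + 2 * N + 1) ^ N := by
  have h1 := (le_gamma_add_nat hy N).resolve_right hN
  rw [pow_one] at h1
  have h2 := gamma_add_le (y := y + β) (β := N - β) (N := N) (by linarith) (by linarith)
    (by linarith)
  rw [show y + β + (N - β) = y + N by ring] at h2
  have h3 : Gamma (y + β) * (y + β + N + 1) ^ N ≤ Gamma (y + β) * (y + 2 * N + 1) ^ N := by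
    have : 0 < Gamma (y + β) := Gamma_pos_of_pos (by linarith)
    exact mul_le_mul_of_nonneg_left (pow_le_pow_left₀ (by positivity) (by linarith) N) this.le
  exact h1.trans (h2.trans h3)

/-- the reciprocal Gamma function at `1 - z` -/
theorem inv_gamma_one_sub {z : ℝ} (hz : 0 < z) : (Gamma (1 - z))⁻¹ = Gamma z * sin (π * z) / π := by
  have h1 := Gamma_mul_Gamma_one_sub z
  have hG : Gamma z ≠ 0 := (Gamma_pos_of_pos hz).ne'
  rcases eq_or_ne (sin (π * z)) 0 with h0 | h0
  · rw [h0, div_zero] at h1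
    have h2 : Gamma (1 - z) = 0 := (mul_eq_zero.mp h1).resolve_left hG
    rw [h2, h0]
    simp
  · have h2 : Gamma (1 - z) = π / (sin (π * z) * Gamma z) := by
      field_simp at h1 ⊢
      linarith
    rw [h2, inv_div]
    ring

end Pool.Agent.V11109.StSup
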