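import Mathlib

/-! An a.e. zero-one law and an a.e. lower bound for sines. -/

open MeasureTheory Set Filter Real

namespace Pool.Agent.V11109.StSup

/-- A measurable set of reals which is a.e. invariant under the translations by `1` and by an
irrational number is null or conull in `(0,1]`. -/
theorem zero_one {S : Set ℝ} (hS : MeasurableSet S) {θ : ℝ} (hθ : Irrational θ)
    (h1 : ∀ᵐ ρ : ℝ, (ρ + 1 ∈ S ↔ ρ ∈ S)) (h2 : ∀ᵐ ρ : ℝ, (ρ + θ ∈ S ↔ ρ ∈ S)) :
    (∀ᵐ ρ : ℝ ∂(volume.restrict (Ioc 0 1)), ρ ∈ S) ∨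
      (∀ᵐ ρ : ℝ ∂(volume.restrict (Ioc 0 1)), ρ ∉ S) := by
  have hf1 : Fact ((0 : ℝ) < 1) := ⟨one_pos⟩
  have htr : ∀ (c : ℝ) (p : ℝ → Prop), (∀ᵐ ρ : ℝ, p ρ) → ∀ᵐ ρ : ℝ, p (ρ + c) := fun c p hp =>
    (measurePreserving_add_right volume c).quasiMeasurePreserving.ae hp
  have hnat : ∀ᵐ ρ : ℝ, ∀ k : ℤ, (ρ + k + 1 ∈ S ↔ ρ + k ∈ S) := by
    rw [ae_all_iff]
    intro k
    exact htr k (fun ρ => (ρ + 1 ∈ S ↔ ρ ∈ S)) h1
  have hint : ∀ᵐ ρ : ℝ, ∀ k : ℤ, (ρ + k ∈ S ↔ ρ ∈ S) := by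
    filter_upwards [hnat] with ρ hρ k
    induction k using Int.induction_on with
    | zero => simp
    | succ i ih =>
      have := hρ i
      push_cast at this ih ⊢
      rw [← add_assoc, this, ih]
    | pred i ih =>
      have := hρ (-i - 1)
      push_cast at this ih ⊢
      rw [← ih, ← this]
      rw [show ρ + (-(i : ℝ) - 1) + 1 = ρ + -(i : ℝ) by ring]
  let r : AddCircle (1 : ℝ) → ℝ := fun x => (AddCircle.measurableEquivIoc 1 0 x : ℝ)
  have hr : Measurable r := measurable_subtype_coe.comp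
    (AddCircle.measurableEquivIoc (1 : ℝ) 0).measurable
  have hrk : ∀ t : ℝ, ∃ k : ℤ, r (t : AddCircle (1 : ℝ)) = t + k := by
    intro t
    have e1 : ((r (t : AddCircle (1 : ℝ)) : ℝ) : AddCircle (1 : ℝ)) = (t : AddCircle (1 : ℝ)) :=
      (AddCircle.equivIoc (1 : ℝ) 0).symm_apply_apply _
    have e2 : ((r (t : AddCircle (1 : ℝ)) - t : ℝ) : AddCircle (1 : ℝ)) = 0 := by
      rw [AddCircle.coe_sub, e1, sub_self]
    obtain ⟨k, hk⟩ := (AddCircle.coe_eq_zero_iff (1 : ℝ)).mp e2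
    refine ⟨k, ?_⟩
    have : (k : ℝ) = r (t : AddCircle (1 : ℝ)) - t := by simpa using hk
    linarith
  let s : Set (AddCircle (1 : ℝ)) := r ⁻¹' S
  have hs : MeasurableSet s := hr hS
  have hst : ∀ᵐ t : ℝ, ((t : AddCircle (1 : ℝ)) ∈ s ↔ t ∈ S) := by
    filter_upwards [hint] with t ht
    obtain ⟨k, hk⟩ := hrk t
    change r (t : AddCircle (1 : ℝ)) ∈ S ↔ t ∈ S
    rw [hk, ht]
  have hmap := (AddCircle.measurePreserving_mk (1 : ℝ) 0).map_eq
  rw [zero_add] at hmap
  have hmk : Measurable ((↑) : ℝ → AddCircle (1 : ℝ)) := AddCircle.measurable_mk'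
  have hinv : (fun x : AddCircle (1 : ℝ) => x + (θ : AddCircle (1 : ℝ))) ⁻¹' s =ᵐ[volume] s := by
    have hms : MeasurableSet {x : AddCircle (1 : ℝ) |
        (x + (θ : AddCircle (1 : ℝ)) ∈ s ↔ x ∈ s)} := by
      have h1 : Measurable (fun x : AddCircle (1 : ℝ) => x + (θ : AddCircle (1 : ℝ))) :=
        measurable_id.add_const _
      exact MeasurableSet.iff (h1 hs) hs
    have : ∀ᵐ x : AddCircle (1 : ℝ), (x + (θ : AddCircle (1 : ℝ)) ∈ s ↔ x ∈ s) := by
      rw [← hmap, ae_map_iff hmk.aemeasurable hms]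
      refine ae_restrict_of_ae ?_
      filter_upwards [hst, htr θ (fun t => ((t : AddCircle (1 : ℝ)) ∈ s ↔ t ∈ S)) hst, h2]
        with t ht1 ht2 ht3
      rw [← AddCircle.coe_add, ht2, ht3, ht1]
    filter_upwards [this] with x hx
    exact propext hx
  have herg : Ergodic (fun x : AddCircle (1 : ℝ) => x + (θ : AddCircle (1 : ℝ))) volume := by
    rw [AddCircle.ergodic_add_right, ← AddCircle.denseRange_zsmul_iff,
      AddCircle.denseRange_zsmul_coe_iff, div_one]
    exact hθ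
  rcases herg.quasiErgodic.ae_mem_or_ae_notMem₀ hs.nullMeasurableSet hinv with h | h
  · left
    rw [← hmap] at h
    have h' := (ae_map_iff hmk.aemeasurable (p := fun x => x ∈ s) hs).mp h
    filter_upwards [h', ae_restrict_of_ae hst] with t h1 h2
    exact h2.mp h1
  · right
    rw [← hmap] at h
    have h' := (ae_map_iff hmk.aemeasurable (p := fun x => x ∉ s) hs.compl).mp h
    filter_upwards [h', ae_restrict_of_ae hst] with t h1 h2
    exact fun h3 => h1 (h2.mpr h3)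

theorem exists_pos_le {u : ℕ → ℝ} (hu : ∀ n, 0 < u n) (h : ∀ᶠ n in atTop, 1 ≤ u n) :
    ∃ c, 0 < c ∧ ∀ n, c ≤ u n := by
  obtain ⟨N, hN⟩ := eventually_atTop.mp h
  have : ∀ M : ℕ, ∃ c, 0 < c ∧ c ≤ 1 ∧ ∀ n < M, c ≤ u n := by
    intro M
    induction M with
    | zero => exact ⟨1, one_pos, le_rfl, fun n hn => absurd hn (by omega)⟩
    | succ M ih =>
      obtain ⟨c, hc, hc1, hcu⟩ := ih
      refine ⟨min c (u M), lt_min hc (hu M), (min_le_left _ _).trans hc1, fun n hn => ?_⟩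
      rcases Nat.lt_succ_iff_lt_or_eq.mp hn with h1 | h1
      · exact (min_le_left _ _).trans (hcu n h1)
      · rw [h1]
        exact min_le_right _ _
  obtain ⟨c, hc, hc1, hcu⟩ := this N
  refine ⟨c, hc, fun n => ?_⟩
  rcases lt_or_ge n N with h1 | h1
  · exact hcu n h1
  · exact hc1.trans (hN n h1)

/-- `|sin (π y)|` bounds the distance to the nearest integer. -/
theorem two_mul_abs_sub_round_le (y : ℝ) : 2 * |y - round y| ≤ |sin (π * y)| := by
  have h1 : |y - round y| ≤ 1 / 2 := abs_sub_round y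
  have h2 : |π * (y - round y)| ≤ π / 2 := by
    rw [abs_mul, abs_of_pos pi_pos]
    nlinarith [pi_pos]
  have h3 := mul_abs_le_abs_sin h2
  rw [abs_mul, abs_of_pos pi_pos] at h3
  have h4 : |sin (π * (y - round y))| = |sin (π * y)| := by
    rw [mul_sub, mul_comm π (round y : ℝ), sin_sub_int_mul_pi]
    rw [abs_mul]
    simp
  rw [h4] at h3
  have h5 : 2 / π * (π * |y - round y|) = 2 * |y - round y| := by
    field_simp
  linarith

theorem volume_small_le {θ : ℝ} (hθ : θ ≠ 0) (K : ℕ) : ∃ C : ℝ, 0 ≤ C ∧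
    ∀ (η ε : ℝ), 0 < ε → ε ≤ 1 →
      volume ({ρ : ℝ | |sin (π * (θ * ρ + η))| < ε} ∩ Icc (-(K : ℝ)) K) ≤ ENNReal.ofReal (C * ε) := by
  obtain ⟨N, hN⟩ := exists_nat_ge (|θ| * K + 3)
  refine ⟨(2 * N + 1) * (1 / |θ|), by positivity, ?_⟩
  intro η ε hε hε1
  have hθ0 : 0 < |θ| := abs_pos.mpr hθ
  have hsub : ({ρ : ℝ | |sin (π * (θ * ρ + η))| < ε} ∩ Icc (-(K : ℝ)) K) ⊆
      ⋃ k ∈ Finset.Icc (-(N : ℤ)) N,
        Metric.closedBall (((k : ℝ) - Int.fract η) / θ) (ε / (2 * |θ|)) := by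
    rintro ρ ⟨h1, h2⟩
    have h1' : |sin (π * (θ * ρ + η))| < ε := h1
    set y := θ * ρ + Int.fract η with hy
    have h3 : |sin (π * y)| = |sin (π * (θ * ρ + η))| := by
      have : π * (θ * ρ + η) = π * y + (⌊η⌋ : ℤ) * π := by
        rw [hy]
        have := Int.floor_add_fract η
        nlinarith [pi_pos]
      rw [this, sin_add_int_mul_pi, abs_mul]
      simp
    have h4 := two_mul_abs_sub_round_le y
    rw [h3] at h4
    have h5 : |y - round y| ≤ ε / 2 := by linarith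
    have h6 : |y| ≤ |θ| * K + 1 := by
      have e1 : |θ * ρ| ≤ |θ| * K := by
        rw [abs_mul]
        gcongr
        exact abs_le.mpr h2
      have e2 : |Int.fract η| ≤ 1 := by
        rw [abs_of_nonneg (Int.fract_nonneg _)]
        exact (Int.fract_lt_one _).le
      exact (abs_add_le _ _).trans (add_le_add e1 e2)
    have h7 : |(round y : ℝ)| ≤ N := by
      have : |(round y : ℝ)| ≤ |y| + |y - round y| := by
        have : (round y : ℝ) = y - (y - round y) := by ring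
        calc |(round y : ℝ)| = |y - (y - round y)| := by rw [← this]
          _ ≤ _ := abs_sub _ _
      linarith
    have h8 : round y ∈ Finset.Icc (-(N : ℤ)) N := by
      rw [Finset.mem_Icc]
      have := abs_le.mp h7
      exact ⟨by exact_mod_cast this.1, by exact_mod_cast this.2⟩
    refine mem_biUnion h8 ?_
    rw [Metric.mem_closedBall, dist_eq]
    have e1 : ρ - ((round y : ℝ) - Int.fract η) / θ = (y - round y) / θ := by
      rw [hy]
      field_simp
      ring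
    rw [e1, abs_div, div_le_div_iff₀ hθ0 (by positivity)]
    nlinarith
  refine (measure_mono hsub).trans ((measure_biUnion_finset_le _ _).trans ?_)
  have h1 : ∀ k ∈ Finset.Icc (-(N : ℤ)) N,
      volume (Metric.closedBall (((k : ℝ) - Int.fract η) / θ) (ε / (2 * |θ|))) ≤
        ENNReal.ofReal (ε / |θ|) := by
    intro k _
    rw [volume_closedBall]
    refine ENNReal.ofReal_le_ofReal (le_of_eq ?_)
    field_simp
  refine (Finset.sum_le_sum h1).trans ?_
  rw [Finset.sum_const, nsmul_eq_mul, Int.card_Icc]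
  have h2 : ((N : ℤ) + 1 - -(N : ℤ)).toNat = 2 * N + 1 := by omega
  rw [h2, ← ENNReal.ofReal_natCast, ← ENNReal.ofReal_mul (by positivity)]
  refine ENNReal.ofReal_le_ofReal (le_of_eq ?_)
  push_cast
  ring

/-- A.e. lower bound for the sines along a sequence. -/
theorem ae_good {θ : ℝ} (hθ : θ ≠ 0) (η : ℕ → ℝ) :
    ∀ᵐ ρ : ℝ, ∃ c, 0 < c ∧ ∀ n : ℕ, c ≤ |sin (π * (θ * ρ + η n))| * ((n : ℝ) + 1) ^ 2 := by
  have h0 : ∀ᵐ ρ : ℝ, ∀ n : ℕ, sin (π * (θ * ρ + η n)) ≠ 0 := by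
    rw [ae_all_iff]
    intro n
    have hc : ({ρ : ℝ | sin (π * (θ * ρ + η n)) = 0}).Countable := by
      refine (Set.countable_range fun k : ℤ => ((k : ℝ) - η n) / θ).mono ?_
      intro ρ hρ
      obtain ⟨k, hk⟩ := sin_eq_zero_iff.mp hρ
      refine ⟨k, ?_⟩
      have : (k : ℝ) = θ * ρ + η n := by
        have : (k : ℝ) * π = (θ * ρ + η n) * π := by rw [hk]; ring
        exact mul_right_cancel₀ pi_ne_zero this
      dsimp only
      rw [this]
      field_simp
      ring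
    have := hc.measure_zero volume
    rw [ae_iff]
    simpa using this
  have hK : ∀ K : ℕ, ∀ᵐ ρ : ℝ, ρ ∈ Icc (-(K : ℝ)) K →
      ∀ᶠ n : ℕ in atTop, 1 ≤ |sin (π * (θ * ρ + η n))| * ((n : ℝ) + 1) ^ 2 := by
    intro K
    obtain ⟨C, hC, hvol⟩ := volume_small_le hθ K
    have hsum : ∑' n : ℕ, volume ({ρ : ℝ | |sin (π * (θ * ρ + η n))| < 1 / ((n : ℝ) + 1) ^ 2} ∩
        Icc (-(K : ℝ)) K) ≠ ⊤ := by
      refine ne_top_of_le_ne_top ?_ (ENNReal.tsum_le_tsum fun n =>
        hvol (η n) (1 / ((n : ℝ) + 1) ^ 2) (by positivity) ?_)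
      · have hs : Summable fun n : ℕ => C * (1 / ((n : ℝ) + 1) ^ 2) := by
          refine Summable.mul_left C ?_
          have := (summable_nat_add_iff 1).mpr (Real.summable_one_div_nat_pow.mpr one_lt_two)
          simpa using this
        rw [← ENNReal.ofReal_tsum_of_nonneg (fun n => by positivity) hs]
        exact ENNReal.ofReal_ne_top
      · rw [div_le_one (by positivity)]
        have : (0 : ℝ) ≤ n := Nat.cast_nonneg n
        nlinarith
    filter_upwards [ae_eventually_notMem hsum] with ρ hρ hρK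
    filter_upwards [hρ] with n hn
    by_contra hcon
    push Not at hcon
    refine hn ⟨?_, hρK⟩
    change |sin (π * (θ * ρ + η n))| < 1 / ((n : ℝ) + 1) ^ 2
    rw [lt_div_iff₀ (by positivity)]
    exact hcon
  filter_upwards [h0, ae_all_iff.mpr hK] with ρ h1 h2
  refine exists_pos_le (fun n => mul_pos (abs_pos.mpr (h1 n)) (by positivity)) ?_
  obtain ⟨K, hKρ⟩ := exists_nat_ge |ρ|
  exact h2 K (abs_le.mp hKρ)

end Pool.Agent.V11109.StSup
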