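import Pool.Agent.V11109.StSup.Erg

/-! Double series with sine product coefficients: the a.e. invariance of the convergence set. -/

open MeasureTheory Set Filter Real

namespace Pool.Agent.V11109.StSup

/-- `P_m(ρ) = ∏_{j<m} |sin π(ρ + j/α)|` -/
noncomputable def P (α : ℝ) (m : ℕ) (ρ : ℝ) : ℝ := ∏ j ∈ Finset.range m, |sin (π * (ρ + j / α))|

/-- `R_n(ρ) = ∏_{j<n} |sin πα(ρ + j)|` -/
noncomputable def R (α : ℝ) (n : ℕ) (ρ : ℝ) : ℝ := ∏ j ∈ Finset.range n, |sin (π * (α * (ρ + j)))|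

theorem P_nonneg (α : ℝ) (m : ℕ) (ρ : ℝ) : 0 ≤ P α m ρ := Finset.prod_nonneg fun _ _ => abs_nonneg _

theorem R_nonneg (α : ℝ) (m : ℕ) (ρ : ℝ) : 0 ≤ R α m ρ := Finset.prod_nonneg fun _ _ => abs_nonneg _

theorem P_succ (α : ℝ) (m : ℕ) (ρ : ℝ) : P α (m + 1) ρ = P α m ρ * |sin (π * (ρ + m / α))| := by
  rw [P, Finset.prod_range_succ, ← P]

theorem P_add_one (α : ℝ) (m : ℕ) (ρ : ℝ) : P α m (ρ + 1) = P α m ρ := by
  refine Finset.prod_congr rfl fun j _ => ?_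
  have : π * (ρ + 1 + j / α) = π * (ρ + j / α) + π := by ring
  rw [this, sin_add_pi, abs_neg]

theorem R_add_inv {α : ℝ} (hα : α ≠ 0) (n : ℕ) (ρ : ℝ) : R α n (ρ + 1 / α) = R α n ρ := by
  refine Finset.prod_congr rfl fun j _ => ?_
  have : π * (α * (ρ + 1 / α + j)) = π * (α * (ρ + j)) + π := by
    field_simp
    ring
  rw [this, sin_add_pi, abs_neg]

theorem R_add_one (α : ℝ) (n : ℕ) (ρ : ℝ) :
    R α n (ρ + 1) * |sin (π * (α * ρ))| = R α n ρ * |sin (π * (α * (ρ + n)))| := by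
  have h1 := Finset.prod_range_succ (fun j : ℕ => |sin (π * (α * (ρ + j)))|) n
  have h2 := Finset.prod_range_succ' (fun j : ℕ => |sin (π * (α * (ρ + j)))|) n
  unfold R
  rw [← h1, h2]
  congr 1
  · refine Finset.prod_congr rfl fun j _ => ?_
    push_cast
    rw [show ρ + 1 + (j : ℝ) = ρ + (j + 1) by ring]
  · simp

theorem P_add_inv (α : ℝ) (m : ℕ) (ρ : ℝ) :
    P α m (ρ + 1 / α) * |sin (π * ρ)| = P α m ρ * |sin (π * (ρ + m / α))| := by
  have h1 := Finset.prod_range_succ (fun j : ℕ => |sin (π * (ρ + j / α))|) m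
  have h2 := Finset.prod_range_succ' (fun j : ℕ => |sin (π * (ρ + j / α))|) m
  unfold P
  rw [← h1, h2]
  congr 1
  · refine Finset.prod_congr rfl fun j _ => ?_
    push_cast
    rw [show ρ + 1 / α + (j : ℝ) / α = ρ + (j + 1) / α by ring]
  · simp

/-- the series at `ρ` with coefficients `w` converges for all `x > 0` -/
def Cv (α : ℝ) (w : ℕ → ℕ → ℝ) : Prop :=
  ∀ x : ℝ, 0 < x → Summable fun p : ℕ × ℕ => w p.1 p.2 * x ^ ((p.1 : ℝ) + α * p.2)

theorem Cv.of_le {α : ℝ} (hα : 0 < α) {w w' : ℕ → ℕ → ℝ} (hw0 : ∀ m n, 0 ≤ w m n)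
    (hw0' : ∀ m n, 0 ≤ w' m n) {C : ℝ} {k : ℕ}
    (h : ∀ m n : ℕ, w' m n ≤ C * ((m : ℝ) + n + 1) ^ k * w m n) (hw : Cv α w) : Cv α w' := by
  intro x hx
  set β : ℝ := max 1 (1 / α) with hβ
  have hβ1 : 1 ≤ β := le_max_left _ _
  have hβ2 : 1 ≤ β * α := by
    have := le_max_right 1 (1 / α)
    rw [← hβ, div_le_iff₀ hα] at this
    exact this
  have hs := (hw (exp (k * β) * x) (by positivity)).mul_left |C|
  refine Summable.of_nonneg_of_le (fun p => mul_nonneg (hw0' _ _) (by positivity)) (fun p => ?_) hs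
  have hm : (0 : ℝ) ≤ p.1 := Nat.cast_nonneg _
  have hn : (0 : ℝ) ≤ p.2 := Nat.cast_nonneg _
  have h1 : ((p.1 : ℝ) + p.2 + 1) ^ k ≤ exp (k * β) ^ ((p.1 : ℝ) + α * p.2) := by
    have e1 : (p.1 : ℝ) + p.2 + 1 ≤ exp (β * ((p.1 : ℝ) + α * p.2)) := by
      refine (add_one_le_exp _).trans (exp_le_exp.mpr ?_)
      nlinarith
    calc ((p.1 : ℝ) + p.2 + 1) ^ k ≤ exp (β * ((p.1 : ℝ) + α * p.2)) ^ k := by gcongr
      _ = exp (k * β) ^ ((p.1 : ℝ) + α * p.2) := by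
          rw [← exp_nat_mul, ← exp_mul]
          congr 1
          ring
  have h2 : 0 ≤ w p.1 p.2 := hw0 _ _
  calc w' p.1 p.2 * x ^ ((p.1 : ℝ) + α * p.2)
      ≤ (C * ((p.1 : ℝ) + p.2 + 1) ^ k * w p.1 p.2) * x ^ ((p.1 : ℝ) + α * p.2) := by
        gcongr
        exact h _ _
    _ ≤ (|C| * exp (k * β) ^ ((p.1 : ℝ) + α * p.2) * w p.1 p.2) * x ^ ((p.1 : ℝ) + α * p.2) := by
        gcongr
        exact le_abs_self C
    _ = |C| * (w p.1 p.2 * (exp (k * β) * x) ^ ((p.1 : ℝ) + α * p.2)) := by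
        rw [mul_rpow (exp_pos _).le hx.le]
        ring

/-- the coefficients -/
noncomputable def W (α : ℝ) (c : ℕ → ℕ → ℝ) (s t : ℕ) (ρ : ℝ) (m n : ℕ) : ℝ :=
  c m n * P α (m + s) ρ * R α (n + t) ρ

variable {α : ℝ} {c : ℕ → ℕ → ℝ}

theorem W_nonneg (hc : ∀ m n, 0 ≤ c m n) (s t : ℕ) (ρ : ℝ) (m n : ℕ) : 0 ≤ W α c s t ρ m n :=
  mul_nonneg (mul_nonneg (hc _ _) (P_nonneg _ _ _)) (R_nonneg _ _ _)

theorem aux_pow (m n s : ℕ) : ((m + s : ℕ) : ℝ) + 1 ≤ ((s : ℝ) + 1) * ((m : ℝ) + n + 1) := by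
  push_cast
  have hm : (0 : ℝ) ≤ m := Nat.cast_nonneg _
  have hn : (0 : ℝ) ≤ n := Nat.cast_nonneg _
  have hs : (0 : ℝ) ≤ s := Nat.cast_nonneg _
  nlinarith [mul_nonneg hs hm, mul_nonneg hs hn]

/-- invariance under `ρ ↦ ρ + 1` at good points -/
theorem cv_add_one (hα : 0 < α) (hc : ∀ m n, 0 ≤ c m n) (s t : ℕ) {ρ c₀ : ℝ} (hc₀ : 0 < c₀)
    (hg : ∀ n : ℕ, c₀ ≤ |sin (π * (α * (ρ + n)))| * ((n : ℝ) + 1) ^ 2) :
    Cv α (W α c s t (ρ + 1)) ↔ Cv α (W α c s t ρ) := by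
  have hs0 : 0 < |sin (π * (α * ρ))| := by
    have := hg 0
    simp only [Nat.cast_zero, add_zero, zero_add, one_pow, mul_one] at this
    linarith
  have key : ∀ m n, W α c s t (ρ + 1) m n * |sin (π * (α * ρ))| =
      W α c s t ρ m n * |sin (π * (α * (ρ + (n + t : ℕ))))| := by
    intro m n
    have := R_add_one α (n + t) ρ
    unfold W
    rw [P_add_one, mul_assoc, this]
    ring
  constructor
  · refine Cv.of_le hα (fun m n => W_nonneg hc _ _ _ _ _) (fun m n => W_nonneg hc _ _ _ _ _)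
      (C := ((t : ℝ) + 1) ^ 2 / c₀) (k := 2) fun m n => ?_
    have h1 := key m n
    have h2 := hg (n + t)
    have h3 := aux_pow n m t
    have hW := W_nonneg hc s t ρ m n (α := α)
    have hW' := W_nonneg hc s t (ρ + 1) m n (α := α)
    have h4 : W α c s t ρ m n * c₀ ≤
        W α c s t ρ m n * |sin (π * (α * (ρ + (n + t : ℕ))))| * (((n + t : ℕ) : ℝ) + 1) ^ 2 := by
      rw [mul_assoc]
      gcongr
    rw [← h1] at h4
    have h5 : |sin (π * (α * ρ))| ≤ 1 := abs_sin_le_one _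
    have h6 : W α c s t (ρ + 1) m n * |sin (π * (α * ρ))| * (((n + t : ℕ) : ℝ) + 1) ^ 2 ≤
        W α c s t (ρ + 1) m n * 1 * (((t : ℝ) + 1) * ((n : ℝ) + m + 1)) ^ 2 := by
      gcongr
    rw [div_mul_eq_mul_div, div_mul_eq_mul_div, le_div_iff₀ hc₀]
    calc _ ≤ _ := h4
      _ ≤ _ := h6
      _ = _ := by ring
  · refine Cv.of_le hα (fun m n => W_nonneg hc _ _ _ _ _) (fun m n => W_nonneg hc _ _ _ _ _)
      (C := 1 / |sin (π * (α * ρ))|) (k := 0) fun m n => ?_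
    have h1 := key m n
    have hW := W_nonneg hc s t ρ m n (α := α)
    have h2 : |sin (π * (α * (ρ + (n + t : ℕ))))| ≤ 1 := abs_sin_le_one _
    rw [pow_zero, mul_one, one_div_mul_eq_div, le_div_iff₀ hs0, h1]
    exact mul_le_of_le_one_right hW h2

/-- invariance under `ρ ↦ ρ + 1/α` at good points -/
theorem cv_add_inv (hα : 0 < α) (hc : ∀ m n, 0 ≤ c m n) (s t : ℕ) {ρ c₀ : ℝ} (hc₀ : 0 < c₀)
    (hg : ∀ n : ℕ, c₀ ≤ |sin (π * (ρ + n / α))| * ((n : ℝ) + 1) ^ 2) :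
    Cv α (W α c s t (ρ + 1 / α)) ↔ Cv α (W α c s t ρ) := by
  have hs0 : 0 < |sin (π * ρ)| := by
    have := hg 0
    simp only [Nat.cast_zero, zero_div, add_zero, zero_add, one_pow, mul_one] at this
    linarith
  have key : ∀ m n, W α c s t (ρ + 1 / α) m n * |sin (π * ρ)| =
      W α c s t ρ m n * |sin (π * (ρ + (m + s : ℕ) / α))| := by
    intro m n
    have := P_add_inv α (m + s) ρ
    unfold W
    rw [R_add_inv hα.ne']
    calc c m n * P α (m + s) (ρ + 1 / α) * R α (n + t) ρ * |sin (π * ρ)|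
        = c m n * (P α (m + s) (ρ + 1 / α) * |sin (π * ρ)|) * R α (n + t) ρ := by ring
      _ = _ := by
          rw [this]
          ring
  constructor
  · refine Cv.of_le hα (fun m n => W_nonneg hc _ _ _ _ _) (fun m n => W_nonneg hc _ _ _ _ _)
      (C := ((s : ℝ) + 1) ^ 2 / c₀) (k := 2) fun m n => ?_
    have h1 := key m n
    have h2 := hg (m + s)
    have h3 := aux_pow m n s
    have hW := W_nonneg hc s t ρ m n (α := α)
    have hW' := W_nonneg hc s t (ρ + 1 / α) m n (α := α)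
    have h4 : W α c s t ρ m n * c₀ ≤
        W α c s t ρ m n * |sin (π * (ρ + (m + s : ℕ) / α))| * (((m + s : ℕ) : ℝ) + 1) ^ 2 := by
      rw [mul_assoc]
      gcongr
    rw [← h1] at h4
    have h5 : |sin (π * ρ)| ≤ 1 := abs_sin_le_one _
    have h6 : W α c s t (ρ + 1 / α) m n * |sin (π * ρ)| * (((m + s : ℕ) : ℝ) + 1) ^ 2 ≤
        W α c s t (ρ + 1 / α) m n * 1 * (((s : ℝ) + 1) * ((m : ℝ) + n + 1)) ^ 2 := by
      gcongr
    rw [div_mul_eq_mul_div, div_mul_eq_mul_div, le_div_iff₀ hc₀]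
    calc _ ≤ _ := h4
      _ ≤ _ := h6
      _ = _ := by ring
  · refine Cv.of_le hα (fun m n => W_nonneg hc _ _ _ _ _) (fun m n => W_nonneg hc _ _ _ _ _)
      (C := 1 / |sin (π * ρ)|) (k := 0) fun m n => ?_
    have h1 := key m n
    have hW := W_nonneg hc s t ρ m n (α := α)
    have h2 : |sin (π * (ρ + (m + s : ℕ) / α))| ≤ 1 := abs_sin_le_one _
    rw [pow_zero, mul_one, one_div_mul_eq_div, le_div_iff₀ hs0, h1]
    exact mul_le_of_le_one_right hW h2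

theorem measurable_W (s t : ℕ) (m n : ℕ) : Measurable fun ρ => W α c s t ρ m n := by
  unfold W P R
  fun_prop

theorem measurableSet_cv (hα : 0 < α) (hc : ∀ m n, 0 ≤ c m n) (s t : ℕ) :
    MeasurableSet {ρ : ℝ | Cv α (W α c s t ρ)} := by
  have h1 : {ρ : ℝ | Cv α (W α c s t ρ)} = ⋂ K : ℕ, {ρ : ℝ |
      ∑' p : ℕ × ℕ, ENNReal.ofReal (W α c s t ρ p.1 p.2 * ((K : ℝ) + 1) ^ ((p.1 : ℝ) + α * p.2)) ≠ ⊤} := by
    ext ρ
    simp only [mem_ofPred_eq, mem_iInter]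
    constructor
    · intro h K
      rw [← ENNReal.ofReal_tsum_of_nonneg (fun p => mul_nonneg (W_nonneg hc _ _ _ _ _)
        (by positivity)) (h _ (by positivity))]
      exact ENNReal.ofReal_ne_top
    · intro h x hx
      obtain ⟨K, hK⟩ := exists_nat_ge x
      have h2 : Summable fun p : ℕ × ℕ =>
          W α c s t ρ p.1 p.2 * ((K : ℝ) + 1) ^ ((p.1 : ℝ) + α * p.2) := by
        have h3 := ENNReal.summable_toReal (h K)
        refine h3.congr fun p => ?_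
        rw [ENNReal.toReal_ofReal (mul_nonneg (W_nonneg hc _ _ _ _ _) (by positivity))]
      refine Summable.of_nonneg_of_le (fun p => mul_nonneg (W_nonneg hc _ _ _ _ _)
        (by positivity)) (fun p => ?_) h2
      refine mul_le_mul_of_nonneg_left ?_ (W_nonneg hc _ _ _ _ _)
      exact rpow_le_rpow hx.le (by linarith) (by positivity)
  rw [h1]
  refine MeasurableSet.iInter fun K => ?_
  have h2 : Measurable fun ρ : ℝ => ∑' p : ℕ × ℕ,
      ENNReal.ofReal (W α c s t ρ p.1 p.2 * ((K : ℝ) + 1) ^ ((p.1 : ℝ) + α * p.2)) :=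
    Measurable.tsum fun p =>
      ((measurable_W s t p.1 p.2).mul_const _).ennreal_ofReal
  exact (h2 (measurableSet_singleton ⊤)).compl

/-- **Zero-one law for sine product series.** -/
theorem cv_zero_one (hα : 0 < α) (hirr : Irrational α) (hc : ∀ m n, 0 ≤ c m n) (s t : ℕ) :
    (∀ᵐ ρ : ℝ ∂(volume.restrict (Ioc 0 1)), Cv α (W α c s t ρ)) ∨
      (∀ᵐ ρ : ℝ ∂(volume.restrict (Ioc 0 1)), ¬ Cv α (W α c s t ρ)) := by
  refine zero_one (S := {ρ : ℝ | Cv α (W α c s t ρ)}) (measurableSet_cv hα hc s t)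
    (θ := 1 / α) (by rw [one_div]; exact hirr.inv) ?_ ?_
  · filter_upwards [ae_good hα.ne' fun n => α * n] with ρ ⟨c₀, hc₀, hg⟩
    refine cv_add_one hα hc s t hc₀ fun n => ?_
    have := hg n
    rwa [← mul_add] at this
  · filter_upwards [ae_good one_ne_zero fun n => n / α] with ρ ⟨c₀, hc₀, hg⟩
    refine cv_add_inv hα hc s t hc₀ fun n => ?_
    have := hg n
    rwa [one_mul] at this

end Pool.Agent.V11109.StSup
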